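import Mathlib

set_option autoImplicit false

open Set Filter Topology MeasureTheory Real
open scoped ENNReal ContDiff

namespace Pool.Agent.H.MP_d23f22_an

lemma up {f : ℝ → ℝ} (hd : Differentiable ℝ f) (hm : Monotone f) {S : Set ℝ} (hS : MeasurableSet S)
    {B : ℝ} (h : ∀ x ∈ S, deriv f x ≤ B) : volume (f '' S) ≤ ENNReal.ofReal B * volume S := by
  rw [← lintegral_deriv_eq_volume_image_of_monotoneOn hS
    (fun x _ => (hd x).hasDerivAt.hasDerivWithinAt) (hm.monotoneOn _), ← setLIntegral_const]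
  exact setLIntegral_mono' hS fun x hx => ENNReal.ofReal_le_ofReal (h x hx)

lemma cov {f : ℝ → ℝ} (hd : Differentiable ℝ f) (hm : Monotone f) (h1 : ∀ x, f (x + 1) = f x + 1)
    {I J : Set ℝ} (hI : MeasurableSet I) (hJ : MeasurableSet J) {s : ℝ} (hs : I ⊆ Icc s (s + 1))
    {ε : ℝ} (hε : ∀ t, volume (J ∩ Icc t (t + 1)) ≤ ENNReal.ofReal ε) :
    volume {x ∈ I | f x ∈ J ∧ 1 / 20 ≤ deriv f x} ≤ ENNReal.ofReal (20 * ε) := by
  have hS : MeasurableSet {x ∈ I | f x ∈ J ∧ 1 / 20 ≤ deriv f x} :=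
    hI.inter ((hd.continuous.measurable hJ).inter (measurable_deriv f measurableSet_Ici))
  have : ENNReal.ofReal (1 / 20) * volume {x ∈ I | f x ∈ J ∧ 1 / 20 ≤ deriv f x} ≤
      ENNReal.ofReal ε := by
    refine le_trans ?_ ((measure_mono (s := f '' {x ∈ I | f x ∈ J ∧ 1 / 20 ≤ deriv f x}) ?_).trans
      (hε (f s)))
    · rw [← lintegral_deriv_eq_volume_image_of_monotoneOn hS
        (fun x _ => (hd x).hasDerivAt.hasDerivWithinAt) (hm.monotoneOn _), ← setLIntegral_const]
      exact setLIntegral_mono' hS fun x hx => ENNReal.ofReal_le_ofReal hx.2.2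
    · rintro _ ⟨x, hx, rfl⟩
      exact ⟨hx.2.1, hm (hs hx.1).1, h1 s ▸ hm (hs hx.1).2⟩
  rw [ENNReal.ofReal_mul (by norm_num)]
  refine le_of_eq_of_le ?_ (mul_le_mul_right this _)
  rw [← mul_assoc, ← ENNReal.ofReal_mul (by norm_num)]
  simp

lemma tan {G H a : ℝ → ℝ} {J : Set ℝ} (dG : Differentiable ℝ G) (dH : Differentiable ℝ H)
    (mG : Monotone G) (mH : Monotone H) (e1 : ∀ x, H (G x) = x) (e2 : ∀ x, G (H x) = x)
    (ha : ∀ x, deriv G x + deriv H x = a x)
    (hJ : ∀ x, x ∉ J → a x ≤ 2.02 ∧ (a x ≤ 0.61 ∨ 1.98 ≤ a x)) {x : ℝ} (h1 : 0.6 ≤ a x)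
    (h2 : a x ≤ 0.61) (h3 : deriv G x ≤ deriv H x) : (G x ∈ J ∧ 1 / 20 ≤ deriv G x) ∨
      (H x ∈ J ∧ 1 / 20 ≤ deriv H x) ∨ ((H ∘ H) x ∈ J ∧ 1 / 20 ≤ deriv (H ∘ H) x) := by
  have c1 : ∀ y, deriv H (G y) * deriv G y = 1 := fun y =>
    ((dH _).hasDerivAt.comp y (dG y).hasDerivAt).unique
      ((hasDerivAt_id y).congr_of_eventuallyEq (.of_forall e1))
  have c2 : ∀ y, deriv G (H y) * deriv H y = 1 := fun y =>
    ((dG _).hasDerivAt.comp y (dH y).hasDerivAt).unique
      ((hasDerivAt_id y).congr_of_eventuallyEq (.of_forall e2))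
  have pG : ∀ y, 0 ≤ deriv G y := fun y => mG.deriv_nonneg
  have pH : ∀ y, 0 ≤ deriv H y := fun y => mH.deriv_nonneg
  have a0 := ha x
  by_contra c
  push Not at c
  obtain ⟨k1, k2, k3⟩ := c
  have j1 : G x ∈ J := by
    by_contra n
    nlinarith [(hJ _ n).1, ha (G x), c1 x, pG (G x), pG x, pH (G x)]
  have y1 := k1 j1
  have j2 : H x ∉ J := fun n => by linarith [k2 n]
  have b := ha (H x)
  have q := c2 x
  have b1 := (hJ _ j2).1
  have g1 : 1.6 ≤ deriv G (H x) := by nlinarith [pG x, pG (H x)]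
  have g2 : deriv G (H x) ≤ 1.82 := by nlinarith [pG (H x)]
  have b2 := (hJ _ j2).2.resolve_left (by linarith [pH (H x)])
  have j3 : H (H x) ∈ J := by
    by_contra n
    nlinarith [(hJ _ n).1, ha (H (H x)), c2 (H x), pH (H (H x)), pG (H (H x))]
  have := k3 j3
  rw [((dH _).hasDerivAt.comp x (dH x).hasDerivAt).deriv] at this
  nlinarith

lemma noc {G H a : ℝ → ℝ} {I J : Set ℝ} (dG : Differentiable ℝ G) (dH : Differentiable ℝ H)
    (mG : Monotone G) (mH : Monotone H) (e1 : ∀ x, H (G x) = x) (e2 : ∀ x, G (H x) = x)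
    (pG : ∀ x, G (x + 1) = G x + 1) (pH : ∀ x, H (x + 1) = H x + 1)
    (ha : ∀ x, deriv G x + deriv H x = a x)
    (hJ : ∀ x, x ∉ J → a x ≤ 2.02 ∧ (a x ≤ 0.61 ∨ 1.98 ≤ a x))
    (hI : ∀ x ∈ I, 0.6 ≤ a x ∧ a x ≤ 0.61) (mI : MeasurableSet I) (mJ : MeasurableSet J) {s : ℝ}
    (hs : I ⊆ Icc s (s + 1)) {ε : ℝ} (ε0 : 0 ≤ ε)
    (hε : ∀ t, volume (J ∩ Icc t (t + 1)) ≤ ENNReal.ofReal ε) :
    volume I ≤ ENNReal.ofReal (80 * ε) := by
  have := add_le_add (add_le_add (cov dG mG pG mI mJ hs hε) (cov dH mH pH mI mJ hs hε))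
    (add_le_add (cov (dG.comp dG) (mG.comp mG) (fun x => by simp [pG]) mI mJ hs hε)
      (cov (dH.comp dH) (mH.comp mH) (fun x => by simp [pH]) mI mJ hs hε))
  rw [← ENNReal.ofReal_add (by positivity) (by positivity),
    ← ENNReal.ofReal_add (by positivity) (by positivity)] at this
  refine le_trans ((measure_mono fun x hx => ?_).trans ((measure_union_le _ _).trans (add_le_add
    (measure_union_le _ _) (measure_union_le _ _)))) (this.trans_eq (by ring_nf))
  rcases le_total (deriv G x) (deriv H x) with h | h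
  · rcases tan dG dH mG mH e1 e2 ha hJ (hI x hx).1 (hI x hx).2 h with h | h | h
    exacts [.inl (.inl ⟨hx, h⟩), .inl (.inr ⟨hx, h⟩), .inr (.inr ⟨hx, h⟩)]
  · rcases tan dH dG mH mG e2 e1 (fun x => (add_comm _ _).trans (ha x)) hJ (hI x hx).1
      (hI x hx).2 h with h | h | h
    exacts [.inl (.inr ⟨hx, h⟩), .inl (.inl ⟨hx, h⟩), .inr (.inl ⟨hx, h⟩)]

lemma thin {w : ℝ} (w0 : 0 < w) (w1 : w ≤ 1) (c s : ℝ) :
    volume ({y | |y + c - round (y + c)| < w} ∩ Icc s (s + 1)) ≤ ENNReal.ofReal (6 * w) := by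
  have : ∀ k : ℝ, volume (Ioo (k - c - w) (k - c + w)) = ENNReal.ofReal (2 * w) := fun k => by
    rw [Real.volume_Ioo]
    ring_nf
  refine (measure_mono (t := Ioo (⌊s + c⌋ - c - w) (⌊s + c⌋ - c + w) ∪
    (Ioo (⌊s + c⌋ + 1 - c - w) (⌊s + c⌋ + 1 - c + w) ∪
      Ioo (⌊s + c⌋ + 2 - c - w) (⌊s + c⌋ + 2 - c + w))) fun y hy => ?_).trans
    ((measure_union_le _ _).trans ((add_le_add le_rfl (measure_union_le _ _)).trans_eq ?_))
  · obtain ⟨h1, h2⟩ := abs_lt.1 (show |y + c - round (y + c)| < w from hy.1)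
    have a1 : ((⌊s + c⌋ - 1 : ℤ) : ℝ) < round (y + c) := by
      push_cast
      linarith [Int.floor_le (s + c), hy.2.1]
    have a2 : (round (y + c) : ℝ) < ((⌊s + c⌋ + 3 : ℤ) : ℝ) := by
      push_cast
      linarith [Int.lt_floor_add_one (s + c), hy.2.2]
    rw [Int.cast_lt] at a1 a2
    rcases (by omega : round (y + c) = ⌊s + c⌋ ∨ round (y + c) = ⌊s + c⌋ + 1 ∨
      round (y + c) = ⌊s + c⌋ + 2) with h | h | h <;> rw [h] at h1 h2 <;> push_cast at h1 h2
    exacts [.inl ⟨by linarith, by linarith⟩, .inr (.inl ⟨by linarith, by linarith⟩),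
      .inr (.inr ⟨by linarith, by linarith⟩)]
  · rw [this, this, this, ← ENNReal.ofReal_add (by positivity) (by positivity),
      ← ENNReal.ofReal_add (by positivity) (by positivity)]
    ring_nf

lemma spike {w : ℝ} (w0 : 0 < w) (w1 : w ≤ 1 / 2) : ∃ h p : ℝ → ℝ, ContDiff ℝ ω h ∧
    (∀ x, HasDerivAt h (p x) x) ∧ (∀ x, 1 / 2 ≤ p x) ∧
    (∀ x : ℝ, w ≤ |x - round x| → p x ≤ 101 / 200) ∧ (∀ x, h (x + 1) = h x + 1) ∧
    (∀ x, h (-x) = -h x) ∧ ∀ x, |h x - x| ≤ 1 := by
  have π0 := pi_pos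
  set m := 1 - cos (2 * π * w) with hm
  have m0 : 0 < m := sub_pos.2 (cos_zero ▸ cos_lt_cos_of_nonneg_of_le_pi le_rfl (by nlinarith)
    (by positivity))
  have m2 : m ≤ 2 := by linarith [neg_one_le_cos (2 * π * w)]
  set r := 1 - m / 200 with hr
  have r0 : 1 / 2 ≤ r := by linarith
  have r1 : r < 1 := by linarith
  have n : ∀ x, 0 < 1 - r * cos (2 * π * x) := fun x => by nlinarith [cos_le_one (2 * π * x)]
  have n' : ∀ x, 0 < 1 - 2 * r * cos (2 * π * x) + r ^ 2 := fun x => by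
    nlinarith [cos_le_one (2 * π * x)]
  refine ⟨fun x => x + arctan (r * sin (2 * π * x) / (1 - r * cos (2 * π * x))) / (2 * π),
    fun x => (1 + (1 - r ^ 2) / (1 - 2 * r * cos (2 * π * x) + r ^ 2)) / 2,
    contDiff_id.add ((contDiff_arctan.comp (ContDiff.div (by fun_prop) (by fun_prop)
      fun x => (n x).ne')).div_const _), fun x => ?_, fun x => ?_, fun x hx => ?_, fun x => ?_,
    fun x => ?_, fun x => ?_⟩
  · have d := (hasDerivAt_id' x).const_mul (2 * π)
    refine ((hasDerivAt_id' x).add (((d.sin.const_mul r).div ((d.cos.const_mul r).const_sub 1)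
      (n x).ne').arctan.div_const _)).congr_deriv ?_
    have e := sin_sq_add_cos_sq (2 * π * x)
    have a := (n x).ne'
    have b := (n' x).ne'
    have : 1 + (r * sin (2 * π * x) / (1 - r * cos (2 * π * x))) ^ 2 =
        (1 - 2 * r * cos (2 * π * x) + r ^ 2) / (1 - r * cos (2 * π * x)) ^ 2 := by
      field_simp
      linear_combination r ^ 2 * e
    simp only [Pi.div_apply, this]
    field_simp
    linear_combination (-2 * r ^ 2) * e
  · have : 0 ≤ (1 - r ^ 2) / (1 - 2 * r * cos (2 * π * x) + r ^ 2) :=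
      div_nonneg (by nlinarith) (n' x).le
    linarith
  · have : cos (2 * π * x) ≤ cos (2 * π * w) := by
      rw [← cos_sub_int_mul_two_pi _ (round x), ← cos_abs, show 2 * π * x - round x * (2 * π) =
        2 * π * (x - round x) by ring, abs_mul, abs_of_pos (by positivity)]
      exact cos_le_cos_of_nonneg_of_le_pi (by positivity) (by nlinarith [abs_sub_round x])
        (by gcongr)
    have : (1 - r ^ 2) / (1 - 2 * r * cos (2 * π * x) + r ^ 2) ≤ 1 / 100 := by
      rw [div_le_iff₀ (n' x)]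
      nlinarith
    linarith
  · simp only [mul_add, mul_one, sin_add_two_pi, cos_add_two_pi]
    ring
  · simp only [mul_neg, sin_neg, cos_neg, neg_div, arctan_neg]
    ring
  · rw [add_sub_cancel_left, abs_div, abs_of_pos (by positivity : 0 < 2 * π),
      div_le_one (by positivity)]
    exact abs_le.2 ⟨by linarith [neg_pi_div_two_lt_arctan (r * sin (2 * π * x) /
      (1 - r * cos (2 * π * x)))], by linarith [arctan_lt_pi_div_two (r * sin (2 * π * x) /
      (1 - r * cos (2 * π * x)))]⟩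

theorem main {ρ : ℝ} (hρ : ∀ k : ℤ, ρ ≠ k) : ∃ h k : ℝ → ℝ, ContDiff ℝ ω h ∧ ContDiff ℝ ω k ∧
    (∀ x, k (h x) = x) ∧ (∀ x, h (k x) = x) ∧ (∀ x, h (x + 1) = h x + 1) ∧
    (∀ x, k (x + 1) = k x + 1) ∧ (∀ x, h (-x) = -h x) ∧ (∀ x, |h x - x| ≤ 1) ∧
    ∀ G H : ℝ → ℝ, Differentiable ℝ G → Differentiable ℝ H → (∀ x, H (G x) = x) →
      (∀ x, G (H x) = x) → (∀ x, G (x + 1) = G x + 1) → (∀ x, H (x + 1) = H x + 1) →
      ¬ ∀ x, G x + H x = 2 * x + 7 / 10 * (h (k x + ρ) + h (k x - ρ) - 2 * x) := by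
  set w := min (1 / 1000000) (|ρ - round ρ| / 2) with hw
  have w0 : 0 < w := lt_min (by norm_num) (half_pos (abs_pos.2 (sub_ne_zero.2 (hρ _))))
  have w1 : w ≤ 1 / 1000000 := min_le_left _ _
  have w2 : 2 * w ≤ |ρ - round ρ| := by linarith [min_le_right (1 / 1000000) (|ρ - round ρ| / 2)]
  obtain ⟨h, p, h1, h2, h3, h4, h5, h6, h7⟩ := spike w0 (by linarith)
  have dh : Differentiable ℝ h := fun x => (h2 x).differentiableAt
  have sm : StrictMono h := strictMono_of_deriv_pos fun x => by rw [(h2 x).deriv]; linarith [h3 x]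
  have su : Function.Surjective h := dh.continuous.surjective
    (tendsto_atTop_mono (f := fun x => x + -1) (fun x => by linarith [(abs_le.1 (h7 x)).1])
      (tendsto_atTop_add_const_right _ (-1) tendsto_id))
    (tendsto_atBot_mono (f := fun x => x + 1) (fun x => by linarith [(abs_le.1 (h7 x)).2])
      (tendsto_atBot_add_const_right _ 1 tendsto_id))
  let e := (sm.orderIsoOfSurjective h su).toHomeomorph
  have ck : ContDiff ℝ ω e.symm := e.contDiff_symm_deriv (fun x => by linarith [h3 x]) h2 h1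
  have k1 : ∀ x, e.symm (h x) = x := e.symm_apply_apply
  have k2 : ∀ x, h (e.symm x) = x := e.apply_symm_apply
  have k3 : ∀ x, e.symm (x + 1) = e.symm x + 1 := fun x => sm.injective (by rw [h5, k2, k2])
  have mk : Monotone e.symm := fun x y hxy => sm.le_iff_le.1 (by rwa [k2, k2])
  refine ⟨h, e.symm, h1, ck, k1, k2, h5, k3, h6, h7, fun G H dG dH e1 e2 pG pH hs => ?_⟩
  have mo : ∀ {G H : ℝ → ℝ}, Differentiable ℝ G → (∀ x, H (G x) = x) → (∀ x, G (x + 1) = G x + 1) →
      Monotone G := fun dG e1 pG => ((dG.continuous.strictMono_of_inj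
        (Function.LeftInverse.injective e1)).resolve_right fun h => by
          linarith [h (lt_add_one 0), pG 0]).monotone
  have dk : ∀ x, HasDerivAt e.symm (p (e.symm x))⁻¹ x := fun x =>
    (h2 _).of_local_left_inverse e.symm.continuous.continuousAt (by linarith [h3 (e.symm x)])
      (.of_forall k2)
  have far : ∀ x : ℝ, |x - round x| < w → w ≤ |x + ρ - round (x + ρ)| ∧
      w ≤ |x + -ρ - round (x + -ρ)| := fun x hx => by
    have a1 := round_le ρ (round (x + ρ) - round x)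
    have a2 := round_le ρ (round x - round (x + -ρ))
    push_cast at a1 a2
    have b1 := abs_sub (x + ρ - round (x + ρ)) (x - round x)
    have b2 := abs_sub (x - round x) (x + -ρ - round (x + -ρ))
    constructor
    · rw [show x + ρ - round (x + ρ) - (x - round x) = ρ - (round (x + ρ) - round x) by ring] at b1
      linarith
    · rw [show x - round x - (x + -ρ - round (x + -ρ)) = ρ - (round x - round (x + -ρ)) by ring]
        at b2
      linarith
  have mp : Measurable p := (funext fun x => (h2 x).deriv : deriv h = p) ▸ measurable_deriv h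
  have md : ∀ c : ℝ, MeasurableSet {y : ℝ | |y + c - round (y + c)| < w} := fun c =>
    measurableSet_lt (by simp only [round_eq]; fun_prop) measurable_const
  set S := {y : ℝ | |y + 0 - round (y + 0)| < w} ∩ {y | p y < 100} with hS
  have mS : MeasurableSet S := (md 0).inter (measurableSet_lt mp measurable_const)
  set J := S ∪ ({y : ℝ | |y + ρ - round (y + ρ)| < w} ∪ {y : ℝ | |y + -ρ - round (y + -ρ)| < w})
    with hJ
  have mJ : MeasurableSet J := mS.union ((md _).union (md _))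
  set I := Icc (-(1 / 2) : ℝ) (-(1 / 2) + 1) ∩ {y | 100 ≤ p y} with hI
  have mI : MeasurableSet I := measurableSet_Icc.inter (measurableSet_le measurable_const mp)
  have big : ∀ y, 100 ≤ p y → p (y + ρ) ≤ 101 / 200 → p (y + -ρ) ≤ 101 / 200 →
      0.6 ≤ 0.6 + 0.7 * ((p (y + ρ) + p (y + -ρ)) / p y) ∧
        0.6 + 0.7 * ((p (y + ρ) + p (y + -ρ)) / p y) ≤ 0.61 := fun y a b c => by
    have : 0 ≤ (p (y + ρ) + p (y + -ρ)) / p y :=
      div_nonneg (by linarith [h3 (y + ρ), h3 (y + -ρ)]) (by linarith)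
    have : (p (y + ρ) + p (y + -ρ)) / p y ≤ 1 / 70 := by
      rw [div_le_iff₀ (by linarith)]
      linarith
    constructor <;> linarith
  have := noc (a := fun x => 0.6 + 0.7 * ((p (e.symm x + ρ) + p (e.symm x + -ρ)) / p (e.symm x)))
    (I := e.symm ⁻¹' I) (J := e.symm ⁻¹' J) (s := h (-(1 / 2))) (ε := 100 * (18 * w)) dG dH
    (mo dG e1 pG) (mo dH e2 pH) e1 e2 pG pH (fun x => ?_) (fun x hx => ?_) (fun x hx => ?_)
    (e.symm.continuous.measurable mI) (e.symm.continuous.measurable mJ) (fun x hx => ?_)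
    (by positivity) fun t => ?_
  · have a1 := (up dh sm.monotone (mS.inter measurableSet_Icc) (B := 100) (S := S ∩ Icc (-(1 / 2))
      (-(1 / 2) + 1)) fun x hx => (h2 x).deriv ▸ le_of_lt hx.1.2).trans (mul_le_mul_right
      ((measure_mono (inter_subset_inter_left _ inter_subset_left)).trans
        (thin w0 (by linarith) 0 _)) _)
    have a2 := (up dh sm.monotone ((md 0).compl.inter measurableSet_Icc) (B := 101 / 200)
      (S := {y : ℝ | |y + 0 - round (y + 0)| < w}ᶜ ∩ Icc (-(1 / 2)) (-(1 / 2) + 1))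
      fun x hx => (h2 x).deriv ▸ h4 x (by simpa using hx.1)).trans (mul_le_mul_right
      (measure_mono inter_subset_right) _)
    have a3 := (measure_mono (s := Icc (h (-(1 / 2))) (h (-(1 / 2)) + 1)) fun x hx => by
      have m : e.symm x ∈ Icc (-(1 / 2) : ℝ) (-(1 / 2) + 1) :=
        ⟨k1 (-(1 / 2)) ▸ mk hx.1, k1 (-(1 / 2)) ▸ k3 _ ▸ mk hx.2⟩
      by_cases c : 100 ≤ p (e.symm x)
      · exact .inl ⟨m, c⟩
      · by_cases c' : |e.symm x + 0 - round (e.symm x + 0)| < w
        · exact .inr (.inl ⟨_, ⟨⟨c', not_le.1 c⟩, m⟩, k2 x⟩)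
        · exact .inr (.inr ⟨_, ⟨c', m⟩, k2 x⟩)).trans ((measure_union_le (μ := volume) _ _).trans
      (add_le_add this ((measure_union_le _ _).trans (add_le_add a1 a2))))
    rw [Real.volume_Icc, Real.volume_Icc, add_sub_cancel_left, add_sub_cancel_left,
      ← ENNReal.ofReal_mul (by norm_num), ← ENNReal.ofReal_mul (by norm_num),
      ← ENNReal.ofReal_add (by positivity) (by positivity),
      ← ENNReal.ofReal_add (by positivity) (by positivity),
      ENNReal.ofReal_le_ofReal_iff (by positivity)] at a3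
    linarith
  · have := ((dG x).hasDerivAt.add (dH x).hasDerivAt).unique ((((hasDerivAt_id' x).const_mul 2).add
      ((((h2 _).comp x ((dk x).add_const ρ)).add ((h2 _).comp x ((dk x).sub_const ρ))).sub
      ((hasDerivAt_id' x).const_mul 2) |>.const_mul (7 / 10))).congr_of_eventuallyEq (.of_forall hs))
    rw [this, ← sub_eq_add_neg]
    ring
  · simp only [mem_preimage, hJ, hS, mem_union, mem_inter_iff, mem_ofPred, not_or, not_and,
      not_lt, add_zero] at hx
    have b := h4 _ hx.2.1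
    have c := h4 _ hx.2.2
    by_cases d : |e.symm x - round (e.symm x)| < w
    · have := big _ (hx.1 d) b c
      exact ⟨by linarith, .inl this.2⟩
    · have a := h4 _ (not_lt.1 d)
      have q := h3 (e.symm x)
      have u1 : (p (e.symm x + ρ) + p (e.symm x + -ρ)) / p (e.symm x) ≤ 2.02 := by
        rw [div_le_iff₀ (by linarith)]
        linarith
      have u2 : 1.98 ≤ (p (e.symm x + ρ) + p (e.symm x + -ρ)) / p (e.symm x) := by
        rw [le_div_iff₀ (by linarith)]
        linarith [h3 (e.symm x + ρ), h3 (e.symm x + -ρ)]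
      exact ⟨by linarith, .inr (by linarith)⟩
  · have a : 100 ≤ p (e.symm x) := hx.2
    have := far (e.symm x) (by
      by_contra c
      linarith [h4 _ (not_lt.1 c)])
    exact big _ a (h4 _ this.1) (h4 _ this.2)
  · exact ⟨k2 x ▸ sm.monotone hx.1.1, k2 x ▸ h5 _ ▸ sm.monotone hx.1.2⟩
  · refine (measure_mono (t := h '' (J ∩ Icc (e.symm t) (e.symm t + 1))) fun x hx =>
      ⟨_, ⟨hx.1, mk hx.2.1, k3 t ▸ mk hx.2.2⟩, k2 x⟩).trans ((up dh sm.monotone
      (mJ.inter measurableSet_Icc) (B := 100) fun x hx => ?_).trans ?_)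
    · rw [(h2 x).deriv]
      by_contra c
      have := far x (by
        by_contra c'
        linarith [h4 _ (not_lt.1 c')])
      rcases hx.1 with a | a | a
      exacts [c (le_of_lt a.2), this.1.not_gt a, this.2.not_gt a]
    · rw [ENNReal.ofReal_mul (by norm_num), hJ, union_inter_distrib_right, union_inter_distrib_right]
      refine mul_le_mul_right ((measure_union_le _ _).trans ((add_le_add ((measure_mono
        (inter_subset_inter_left _ inter_subset_left)).trans (thin w0 (by linarith) 0 _))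
        ((measure_union_le _ _).trans (add_le_add (thin w0 (by linarith) _ _)
        (thin w0 (by linarith) _ _)))).trans_eq ?_)) _
      rw [← ENNReal.ofReal_add (by positivity) (by positivity),
        ← ENNReal.ofReal_add (by positivity) (by positivity)]
      ring_nf

end Pool.Agent.H.MP_d23f22_an
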